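import Pool.Agent.Helper60.SB.Defs4
import Pool.Agent.Helper41.SB.L4

/-!
# Module L14b: asymptotics of the lower bounds for the classes `W` (MP_7fc85e_an)
-/

open Finset MeasureTheory Filter Topology
open scoped ENNReal Real

namespace Pool.Agent.Helper56.SB

open Pool.Agent.Helper60.SB

/-- choice of the scale -/
theorem l14_scale (φ : ℕ → ℝ) (hφ : Tendsto φ atTop atTop) (h4 : ∀ m, 1 ≤ m → φ (m + 1) ≤ 4 * φ m)
    (hpos : ∀ m, 0 ≤ φ m) (c : ℝ) (hc : 0 < c) (M₀ : ℕ) :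
    ∃ n₀ : ℕ, ∀ n ≥ n₀, ∃ m ≥ M₀, (n : ℝ) ≤ c * φ m ∧ c * φ m ≤ 4 * n := by
  refine ⟨⌈c * ∑ j ∈ range (M₀ + 2), φ j⌉₊ + 1, fun n hn => ?_⟩
  have hex : ∃ m, (n : ℝ) ≤ c * φ m := by
    obtain ⟨m, hm⟩ := (hφ.eventually_ge_atTop ((n : ℝ) / c)).exists
    refine ⟨m, ?_⟩
    rw [div_le_iff₀ hc] at hm
    linarith
  classical
  set m := Nat.find hex with hm
  have h1 : (n : ℝ) ≤ c * φ m := Nat.find_spec hex
  have hlarge : M₀ + 2 ≤ m := by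
    by_contra hcon
    push Not at hcon
    have h2 : φ m ≤ ∑ j ∈ range (M₀ + 2), φ j :=
      Finset.single_le_sum (fun j _ => hpos j) (Finset.mem_range.2 hcon)
    have h3 : c * ∑ j ∈ range (M₀ + 2), φ j ≤ ⌈c * ∑ j ∈ range (M₀ + 2), φ j⌉₊ := Nat.le_ceil _
    have h5 : ((⌈c * ∑ j ∈ range (M₀ + 2), φ j⌉₊ + 1 : ℕ) : ℝ) ≤ n := by exact_mod_cast hn
    push_cast at h5
    have h6 : c * φ m ≤ c * ∑ j ∈ range (M₀ + 2), φ j := mul_le_mul_of_nonneg_left h2 hc.le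
    linarith
  refine ⟨m, by omega, h1, ?_⟩
  obtain ⟨j, hj⟩ : ∃ j, m = j + 1 := ⟨m - 1, by omega⟩
  have h7 : ¬ (n : ℝ) ≤ c * φ j := Nat.find_min hex (by omega)
  have h8 := h4 j (by omega)
  rw [hj]
  push Not at h7
  nlinarith

/-- `2^m / m^e → ∞` -/
theorem l14_tendsto (e : ℕ) : Tendsto (fun m : ℕ => (2 : ℝ) ^ m / (m : ℝ) ^ e) atTop atTop := by
  have h := tendsto_pow_const_div_const_pow_of_one_lt e (r := (2 : ℝ)) (by norm_num)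
  have h2 : Tendsto (fun m : ℕ => ((m : ℝ) ^ e / (2 : ℝ) ^ m)⁻¹) atTop atTop := by
    refine Tendsto.inv_tendsto_nhdsGT_zero ?_
    rw [tendsto_nhdsWithin_iff]
    refine ⟨h, ?_⟩
    filter_upwards [eventually_ge_atTop 1] with m hm
    have : (0 : ℝ) < m := by exact_mod_cast hm
    exact Set.mem_Ioi.2 (by positivity)
  refine h2.congr fun m => ?_
  rw [inv_div]

/-- `e log₂ m ≤ m` for large `m` -/
theorem l14_log_le (e : ℕ) : ∀ᶠ m : ℕ in atTop, e * Nat.log 2 m ≤ m := by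
  filter_upwards [(l14_tendsto e).eventually_ge_atTop 1, eventually_ge_atTop 1] with m hm hm1
  have hm0 : (0 : ℝ) < m := by exact_mod_cast hm1
  rw [le_div_iff₀ (by positivity), one_mul] at hm
  have h1 : (2 : ℝ) ^ (e * Nat.log 2 m) ≤ (2 : ℝ) ^ m := by
    calc (2 : ℝ) ^ (e * Nat.log 2 m) = ((2 : ℝ) ^ Nat.log 2 m) ^ e := by rw [mul_comm, pow_mul]
      _ ≤ (m : ℝ) ^ e := by
          gcongr
          exact_mod_cast Nat.pow_log_le_self 2 (by omega)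
      _ ≤ _ := hm
  exact (pow_le_pow_iff_right₀ (by norm_num : (1 : ℝ) < 2)).1 h1

/-- upper bound of the logarithm -/
theorem l14_log (c : ℝ) (hc : 0 < c) {n m : ℕ} (hn : 1 ≤ n) (hm : 1 ≤ m)
    (h : (n : ℝ) ≤ c * (m * 2 ^ m)) : Real.log n ≤ (|Real.log c| + 2) * m := by
  have hn0 : (0 : ℝ) < n := by exact_mod_cast hn
  have hm0 : (1 : ℝ) ≤ m := by exact_mod_cast hm
  have h1 := Real.log_le_log hn0 h
  rw [Real.log_mul hc.ne' (by positivity), Real.log_mul (by positivity) (by positivity),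
    Real.log_pow] at h1
  have h2 : Real.log m ≤ m := by
    have := Real.log_le_sub_one_of_pos (by linarith : (0 : ℝ) < m)
    linarith
  have h3 : Real.log 2 ≤ 1 := by
    have := Real.log_two_lt_d9
    linarith
  have h4 : Real.log c ≤ |Real.log c| := le_abs_self _
  have h5 : |Real.log c| ≤ |Real.log c| * m := le_mul_of_one_le_right (abs_nonneg _) hm0
  nlinarith

theorem asym_W_small (e : ℕ) (he : 1 ≤ e) (r : ℝ) (hr : 0 < r) (hr2 : r < 1 / 2)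
    (E : ℕ → ℝ≥0∞) (hE : ∃ c > 0, ∃ m₂ : ℕ, ∀ m₀ m₁ N : ℕ, m₂ ≤ m₁ → m₀ ≤ m₁ →
      m₁ ≤ 2 * m₀ → m₂ ≤ N → (2 : ℝ) ^ m₁ ≤ 1 * N * (m₁ : ℝ) ^ e →
      (N : ℝ) * m₁ ≤ 1 * 2 ^ m₀ * ((m₁ - m₀ + 1 : ℕ) : ℝ) ^ 2 * (m₁ : ℝ) ^ e →
      ∀ n : ℕ, (n : ℝ) ≤ c * m₁ * N →
        ENNReal.ofReal (c * (2 : ℝ) ^ ((1 / 2 - r) * m₀) *
          Real.sqrt ((Shp e m₀ m₁).card / N)) ≤ E n) :
    ∃ c > 0, ∃ n₀ : ℕ, ∀ n ≥ n₀,
      ENNReal.ofReal (c * (n : ℝ) ^ (-r) * Real.log n ^ ((e : ℝ) * (1 - r) + r)) ≤ E n := by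
  obtain ⟨c, hc, m₂, hE⟩ := hE
  obtain ⟨c', hc', hcard⟩ := Pool.Agent.Helper41.SB.card_Shp_lower e
  -- the scale
  let N : ℕ → ℕ := fun m => 2 ^ (m - e * Nat.log 2 m)
  let φ : ℕ → ℝ := fun m => m * N m
  have hNa : ∀ᶠ m : ℕ in atTop, (2 : ℝ) ^ m ≤ N m * (m : ℝ) ^ e ∧
      (N m : ℝ) * (m : ℝ) ^ e ≤ 2 ^ e * 2 ^ m := by
    filter_upwards [l14_log_le e, eventually_ge_atTop 1] with m hm hm1
    have e1 : (2 : ℝ) ^ m = (N m : ℝ) * ((2 : ℝ) ^ Nat.log 2 m) ^ e := by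
      have : m = (m - e * Nat.log 2 m) + Nat.log 2 m * e := by
        rw [mul_comm (Nat.log 2 m) e]; omega
      conv_lhs => rw [this]
      rw [pow_add, pow_mul]
      simp [N]
    have h1 : ((2 : ℝ) ^ Nat.log 2 m) ≤ m := by
      exact_mod_cast Nat.pow_log_le_self 2 (by omega)
    have h2 : (m : ℝ) ≤ 2 * (2 : ℝ) ^ Nat.log 2 m := by
      have := (Nat.lt_pow_succ_log_self (b := 2) (by norm_num) m).le
      have h3 : (m : ℝ) ≤ ((2 ^ (Nat.log 2 m).succ : ℕ) : ℝ) := by exact_mod_cast this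
      push_cast at h3
      rw [pow_succ] at h3
      linarith
    constructor
    · rw [e1]; gcongr
    · calc (N m : ℝ) * (m : ℝ) ^ e ≤ (N m : ℝ) * (2 * (2 : ℝ) ^ Nat.log 2 m) ^ e := by gcongr
        _ = 2 ^ e * 2 ^ m := by rw [e1, mul_pow]; ring
  have hNlarge : ∀ᶠ m : ℕ in atTop, m₂ ≤ N m := by
    filter_upwards [hNa, (l14_tendsto e).eventually_ge_atTop (m₂ : ℝ), eventually_ge_atTop 1]
      with m h1 h2 h3
    have hm0 : (0 : ℝ) < m := by exact_mod_cast h3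
    rw [le_div_iff₀ (by positivity)] at h2
    have h4 : (m₂ : ℝ) * (m : ℝ) ^ e ≤ (N m : ℝ) * (m : ℝ) ^ e := h2.trans h1.1
    have h5 : (m₂ : ℝ) ≤ N m := le_of_mul_le_mul_right h4 (by positivity)
    exact_mod_cast h5
  have hφ : Tendsto φ atTop atTop := by
    refine tendsto_atTop_mono' _ ?_ (l14_tendsto e)
    filter_upwards [hNa, eventually_ge_atTop 1] with m h1 h3
    have hm0 : (1 : ℝ) ≤ m := by exact_mod_cast h3
    have hm00 : (0 : ℝ) < m := by linarith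
    rw [div_le_iff₀ (by positivity)]
    have h4 : (0 : ℝ) ≤ N m * (m : ℝ) ^ e := by positivity
    calc (2 : ℝ) ^ m ≤ 1 * (N m * (m : ℝ) ^ e) := by rw [one_mul]; exact h1.1
      _ ≤ m * (N m * (m : ℝ) ^ e) := by gcongr
      _ = φ m * (m : ℝ) ^ e := by simp only [φ]; ring
  have hpos : ∀ m, 0 ≤ φ m := fun m => by simp only [φ]; positivity
  have h4 : ∀ m, 1 ≤ m → φ (m + 1) ≤ 4 * φ m := by
    intro m hm
    have h1 : N (m + 1) ≤ 2 * N m := by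
      have h2 : Nat.log 2 m ≤ Nat.log 2 (m + 1) := Nat.log_mono_right (by omega)
      have h3 : e * Nat.log 2 m ≤ e * Nat.log 2 (m + 1) := Nat.mul_le_mul_left _ h2
      calc N (m + 1) ≤ 2 ^ ((m - e * Nat.log 2 m) + 1) :=
            Nat.pow_le_pow_right (by norm_num) (by omega)
        _ = 2 * N m := by rw [pow_succ]; ring
    have h2 : ((N (m + 1) : ℕ) : ℝ) ≤ 2 * N m := by exact_mod_cast h1
    have h3 : ((m + 1 : ℕ) : ℝ) ≤ 2 * m := by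
      have : (1 : ℝ) ≤ m := by exact_mod_cast hm
      push_cast; linarith
    calc φ (m + 1) = ((m + 1 : ℕ) : ℝ) * (N (m + 1) : ℕ) := rfl
      _ ≤ (2 * m) * (2 * N m) := by gcongr
      _ = 4 * φ m := by simp only [φ]; ring
  obtain ⟨M₀, hM₀⟩ := eventually_atTop.1 (hNa.and hNlarge)
  obtain ⟨n₀, hn₀⟩ := l14_scale φ hφ h4 hpos c hc (max M₀ (max m₂ 1))
  set κ : ℝ := (e : ℝ) * (1 - r) + r with hκ
  set C₁ : ℝ := |Real.log c| + 2 with hC₁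
  have hC₁0 : 0 < C₁ := by positivity
  have hκ0 : 0 ≤ κ := by
    have : (0 : ℝ) ≤ e := by positivity
    have h1r : 0 ≤ 1 - r := by linarith
    positivity
  refine ⟨c * Real.sqrt (c' / 2 ^ e) * (4 / c) ^ (-r) * (C₁⁻¹) ^ κ, by positivity, max n₀ 1,
    fun n hn => ?_⟩
  obtain ⟨m, hm, hn1, hn2⟩ := hn₀ n (le_trans (le_max_left _ _) hn)
  have hn1' : 1 ≤ n := le_trans (le_max_right _ _) hn
  have hn0 : (0 : ℝ) < n := by exact_mod_cast hn1'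
  have hm₂ : m₂ ≤ m := le_trans (le_trans (le_max_left _ _) (le_max_right _ _)) hm
  have hm1 : 1 ≤ m := le_trans (le_trans (le_max_right _ _) (le_max_right _ _)) hm
  have hm0 : (0 : ℝ) < m := by exact_mod_cast hm1
  have hm1' : (1 : ℝ) ≤ m := by exact_mod_cast hm1
  obtain ⟨⟨hNa1, hNa2⟩, hN2⟩ := hM₀ m (le_trans (le_max_left _ _) hm)
  have hN0 : (0 : ℝ) < N m := by
    have : 0 < N m := by simp only [N]; positivity
    exact_mod_cast this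
  have hNle : (N m : ℝ) ≤ 2 ^ m := by
    have : N m ≤ 2 ^ m := Nat.pow_le_pow_right (by norm_num) (by omega)
    exact_mod_cast this
  have hme : (m : ℝ) ≤ (m : ℝ) ^ e := le_self_pow₀ hm1' (by omega)
  have hmain := hE m m (N m) hm₂ le_rfl (by omega) hN2 (by rw [one_mul]; exact hNa1) (by
    rw [Nat.sub_self, zero_add, Nat.cast_one, one_pow, mul_one, one_mul]
    gcongr) n (by
    have : c * φ m = c * m * N m := by simp only [φ]; ring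
    rw [← this]; exact hn1)
  refine le_trans (ENNReal.ofReal_le_ofReal ?_) hmain
  -- step (i)
  have hcm := hcard m m le_rfl (by omega)
  rw [Nat.sub_self, zero_add, Nat.cast_one, mul_one] at hcm
  have hsq : Real.sqrt (c' / 2 ^ e) * (m : ℝ) ^ e * (2 : ℝ) ^ (-((m : ℝ) / 2)) ≤
      Real.sqrt ((Shp e m m).card / N m) := by
    apply Real.le_sqrt_of_sq_le
    have e1 : ((2 : ℝ) ^ (-((m : ℝ) / 2))) ^ 2 = ((2 : ℝ) ^ m)⁻¹ := by
      rw [← Real.rpow_natCast ((2 : ℝ) ^ (-((m : ℝ) / 2))) 2, ← Real.rpow_mul (by norm_num),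
        ← Real.rpow_natCast 2 m, ← Real.rpow_neg (by norm_num)]
      congr 1
      push_cast
      ring
    rw [mul_pow, mul_pow, Real.sq_sqrt (by positivity), e1, le_div_iff₀ hN0]
    calc c' / 2 ^ e * ((m : ℝ) ^ e) ^ 2 * ((2 : ℝ) ^ m)⁻¹ * N m
        = c' * (m : ℝ) ^ e * ((N m * (m : ℝ) ^ e) / (2 ^ e * 2 ^ m)) := by
          field_simp
      _ ≤ c' * (m : ℝ) ^ e * 1 := by
          gcongr
          rw [div_le_one (by positivity)]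
          exact hNa2
      _ ≤ _ := by rw [mul_one]; exact hcm
  -- step (iii)
  have h2m : (2 : ℝ) ^ m ≤ (4 / c * n) * (m : ℝ) ^ (e - 1) := by
    have e2 : (m : ℝ) ^ e = m * (m : ℝ) ^ (e - 1) := by
      rw [← pow_succ']; congr 1; omega
    calc (2 : ℝ) ^ m ≤ N m * (m : ℝ) ^ e := hNa1
      _ = φ m * (m : ℝ) ^ (e - 1) := by rw [e2]; simp only [φ]; ring
      _ ≤ (4 / c * n) * (m : ℝ) ^ (e - 1) := by
          gcongr
          rw [div_mul_eq_mul_div, le_div_iff₀ hc]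
          linarith
  have h2mr : (4 / c) ^ (-r) * (n : ℝ) ^ (-r) * (m : ℝ) ^ (-(r * ((e : ℝ) - 1))) ≤
      (2 : ℝ) ^ (-(r * m)) := by
    have e3 : (2 : ℝ) ^ (-(r * m)) = ((2 : ℝ) ^ m) ^ (-r) := by
      rw [← Real.rpow_natCast 2 m, ← Real.rpow_mul (by norm_num)]
      congr 1; ring
    have e4 : ((4 / c * n) * (m : ℝ) ^ (e - 1)) ^ (-r) =
        (4 / c) ^ (-r) * (n : ℝ) ^ (-r) * (m : ℝ) ^ (-(r * ((e : ℝ) - 1))) := by
      rw [Real.mul_rpow (by positivity) (by positivity), Real.mul_rpow (by positivity)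
        (by positivity)]
      congr 1
      rw [← Real.rpow_natCast (m : ℝ) (e - 1), ← Real.rpow_mul hm0.le]
      congr 1
      rw [Nat.cast_sub he]
      push_cast
      ring
    rw [e3, ← e4]
    exact Real.rpow_le_rpow_of_nonpos (by positivity) h2m (by linarith)
  -- step (v)
  have hlog : Real.log n ≤ C₁ * m := by
    apply l14_log c hc hn1' hm1
    refine hn1.trans ?_
    have : φ m ≤ m * 2 ^ m := by simp only [φ]; gcongr
    gcongr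
  have hlog0 : 0 ≤ Real.log n := Real.log_nonneg (by exact_mod_cast hn1')
  have hmk : (C₁⁻¹) ^ κ * Real.log n ^ κ ≤ (m : ℝ) ^ κ := by
    rw [← Real.mul_rpow (by positivity) hlog0]
    apply Real.rpow_le_rpow (by positivity) _ hκ0
    rw [inv_mul_le_iff₀ hC₁0]
    exact hlog
  have e5 : (m : ℝ) ^ κ = (m : ℝ) ^ e * (m : ℝ) ^ (-(r * ((e : ℝ) - 1))) := by
    rw [← Real.rpow_natCast (m : ℝ) e, ← Real.rpow_add hm0]
    congr 1
    rw [hκ]; ring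
  calc c * Real.sqrt (c' / 2 ^ e) * (4 / c) ^ (-r) * (C₁⁻¹) ^ κ * (n : ℝ) ^ (-r) *
        Real.log n ^ κ
      = c * Real.sqrt (c' / 2 ^ e) * ((4 / c) ^ (-r) * (n : ℝ) ^ (-r)) *
          ((C₁⁻¹) ^ κ * Real.log n ^ κ) := by ring
    _ ≤ c * Real.sqrt (c' / 2 ^ e) * ((4 / c) ^ (-r) * (n : ℝ) ^ (-r)) * (m : ℝ) ^ κ := by
        gcongr
    _ = c * Real.sqrt (c' / 2 ^ e) * (m : ℝ) ^ e * ((4 / c) ^ (-r) * (n : ℝ) ^ (-r) *
          (m : ℝ) ^ (-(r * ((e : ℝ) - 1)))) := by rw [e5]; ring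
    _ ≤ c * Real.sqrt (c' / 2 ^ e) * (m : ℝ) ^ e * (2 : ℝ) ^ (-(r * m)) := by gcongr
    _ = c * (2 : ℝ) ^ ((1 / 2 - r) * m) * (Real.sqrt (c' / 2 ^ e) * (m : ℝ) ^ e *
          (2 : ℝ) ^ (-((m : ℝ) / 2))) := by
        have e6 : (2 : ℝ) ^ (-(r * m)) = (2 : ℝ) ^ ((1 / 2 - r) * m) * (2 : ℝ) ^ (-((m : ℝ) / 2)) := by
          rw [← Real.rpow_add (by norm_num)]
          congr 1; ring
        rw [e6]; ring
    _ ≤ _ := by gcongr

theorem asym_W_half (e : ℕ) (he : 1 ≤ e) (r : ℝ) (hr : r = 1 / 2)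
    (E : ℕ → ℝ≥0∞) (hE : ∃ c > 0, ∃ m₂ : ℕ, ∀ m₀ m₁ N : ℕ, m₂ ≤ m₁ → m₀ ≤ m₁ →
      m₁ ≤ 2 * m₀ → m₂ ≤ N → (2 : ℝ) ^ m₁ ≤ 1 * N * (m₁ : ℝ) ^ e →
      (N : ℝ) * m₁ ≤ 1 * 2 ^ m₀ * ((m₁ - m₀ + 1 : ℕ) : ℝ) ^ 2 * (m₁ : ℝ) ^ e →
      ∀ n : ℕ, (n : ℝ) ≤ c * m₁ * N →
        ENNReal.ofReal (c * (2 : ℝ) ^ ((1 / 2 - r) * m₀) *
          Real.sqrt ((Shp e m₀ m₁).card / N)) ≤ E n) :
    ∃ c > 0, ∃ n₀ : ℕ, ∀ n ≥ n₀,
      ENNReal.ofReal (c * (n : ℝ) ^ (-(1 / 2 : ℝ)) * Real.log n ^ (((e : ℝ) + 1) / 2) *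
        Real.log (Real.log n) ^ (1 / 2 : ℝ)) ≤ E n := by
  obtain ⟨c, hc, m₂, hE⟩ := hE
  obtain ⟨c', hc', hcard⟩ := Pool.Agent.Helper41.SB.card_Shp_lower e
  let φ : ℕ → ℝ := fun v => v * 2 ^ v
  have hφ : Tendsto φ atTop atTop := by
    refine tendsto_atTop_mono' _ ?_ (tendsto_natCast_atTop_atTop (R := ℝ))
    refine Eventually.of_forall fun v => ?_
    have : (1 : ℝ) ≤ 2 ^ v := one_le_pow₀ (by norm_num)
    exact le_mul_of_one_le_right (by positivity) this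
  have hpos : ∀ m, 0 ≤ φ m := fun m => by simp only [φ]; positivity
  have h4 : ∀ m, 1 ≤ m → φ (m + 1) ≤ 4 * φ m := by
    intro m hm
    have : (1 : ℝ) ≤ m := by exact_mod_cast hm
    have h3 : ((m + 1 : ℕ) : ℝ) ≤ 2 * m := by push_cast; linarith
    calc φ (m + 1) = ((m + 1 : ℕ) : ℝ) * (2 ^ m * 2) := by simp only [φ]; rw [pow_succ]
      _ ≤ (2 * m) * (2 ^ m * 2) := by gcongr
      _ = 4 * φ m := by simp only [φ]; ring
  obtain ⟨M₀, hM₀⟩ := eventually_atTop.1 (l14_log_le (3 * e))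
  obtain ⟨n₀, hn₀⟩ := l14_scale φ hφ h4 hpos c hc (max M₀ (max m₂ 1))
  set C₁ : ℝ := |Real.log c| + 2 with hC₁
  have hC₁0 : 0 < C₁ := by positivity
  refine ⟨c * Real.sqrt (c * c' / 4) * (C₁⁻¹) ^ (((e : ℝ) + 1) / 2) *
    ((C₁ + 1)⁻¹) ^ (1 / 2 : ℝ), by positivity, max n₀ 3, fun n hn => ?_⟩
  obtain ⟨v, hv, hn1, hn2⟩ := hn₀ n (le_trans (le_max_left _ _) hn)
  have hn3 : 3 ≤ n := le_trans (le_max_right _ _) hn
  have hn1' : 1 ≤ n := by omega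
  have hn0 : (0 : ℝ) < n := by exact_mod_cast hn1'
  have hm₂ : m₂ ≤ v := le_trans (le_trans (le_max_left _ _) (le_max_right _ _)) hv
  have hv1 : 1 ≤ v := le_trans (le_trans (le_max_right _ _) (le_max_right _ _)) hv
  have hv0 : (0 : ℝ) < v := by exact_mod_cast hv1
  have hv1' : (1 : ℝ) ≤ v := by exact_mod_cast hv1
  have hlogv := hM₀ v (le_trans (le_max_left _ _) hv)
  set k := Nat.log 2 v with hk
  have h1 : ((2 : ℝ) ^ k) ≤ v := by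
    exact_mod_cast Nat.pow_log_le_self 2 (by omega)
  have h2 : (v : ℝ) ≤ 2 * (2 : ℝ) ^ k := by
    have := (Nat.lt_pow_succ_log_self (b := 2) (by norm_num) v).le
    have h3 : (v : ℝ) ≤ ((2 ^ (Nat.log 2 v).succ : ℕ) : ℝ) := by exact_mod_cast this
    push_cast at h3
    rw [pow_succ] at h3
    linarith
  obtain ⟨f, hf⟩ : ∃ f, e = f + 1 := ⟨e - 1, by omega⟩
  obtain ⟨m₀, hm₀⟩ : ∃ m₀, m₀ = v - f * k := ⟨_, rfl⟩
  obtain ⟨m₁, hm₁⟩ : ∃ m₁, m₁ = v + e * k := ⟨_, rfl⟩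
  have hek : e * k = f * k + k := by rw [hf]; ring
  have h3ek : 3 * e * k = 3 * (f * k) + 3 * k := by rw [hf]; ring
  rw [h3ek] at hlogv
  have hv_eq : v = m₀ + f * k := by omega
  have hm01 : m₀ ≤ m₁ := by omega
  have hm12 : m₁ ≤ 2 * m₀ := by omega
  have hdiff : k + 1 ≤ m₁ - m₀ + 1 := by omega
  have hvm₁ : v ≤ m₁ := by omega
  have hvm₁' : (v : ℝ) ≤ m₁ := by exact_mod_cast hvm₁
  have hm₁1 : (1 : ℝ) ≤ m₁ := hv1'.trans hvm₁'
  have hN : m₂ ≤ 2 ^ v := hm₂.trans Nat.lt_two_pow_self.le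
  have hc1 : (2 : ℝ) ^ m₁ ≤ 1 * ((2 ^ v : ℕ) : ℝ) * (m₁ : ℝ) ^ e := by
    have e0 : (2 : ℝ) ^ m₁ = 2 ^ v * ((2 : ℝ) ^ k) ^ e := by
      rw [hm₁, pow_add, mul_comm e k, pow_mul]
    rw [e0, one_mul, Nat.cast_pow, Nat.cast_ofNat]
    gcongr
    exact h1.trans hvm₁'
  have hc2 : ((2 ^ v : ℕ) : ℝ) * m₁ ≤
      1 * 2 ^ m₀ * ((m₁ - m₀ + 1 : ℕ) : ℝ) ^ 2 * (m₁ : ℝ) ^ e := by
    have e1 : ((2 ^ v : ℕ) : ℝ) = 2 ^ m₀ * ((2 : ℝ) ^ k) ^ f := by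
      rw [← pow_mul, mul_comm k f, ← pow_add, ← hv_eq]; push_cast; ring
    have h5 : (1 : ℝ) ≤ ((m₁ - m₀ + 1 : ℕ) : ℝ) ^ 2 := by
      apply one_le_pow₀
      have : 1 ≤ m₁ - m₀ + 1 := by omega
      exact_mod_cast this
    calc ((2 ^ v : ℕ) : ℝ) * m₁ = 2 ^ m₀ * ((2 : ℝ) ^ k) ^ f * m₁ := by rw [e1]
      _ ≤ 2 ^ m₀ * (m₁ : ℝ) ^ f * m₁ := by
          gcongr
          exact h1.trans hvm₁'
      _ = 1 * 2 ^ m₀ * 1 * (m₁ : ℝ) ^ e := by rw [hf, pow_succ]; ring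
      _ ≤ _ := by gcongr
  have hnc : (n : ℝ) ≤ c * m₁ * ((2 ^ v : ℕ) : ℝ) := by
    refine hn1.trans ?_
    have : c * φ v = c * v * ((2 ^ v : ℕ) : ℝ) := by simp only [φ]; push_cast; ring
    rw [this]
    gcongr
  have hmain := hE m₀ m₁ (2 ^ v) (hm₂.trans hvm₁) hm01 hm12 hN hc1 hc2 n hnc
  refine le_trans (ENNReal.ofReal_le_ofReal ?_) hmain
  rw [hr, sub_self, zero_mul, Real.rpow_zero, mul_one]
  -- lower bound of the square root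
  have hcm := hcard m₀ m₁ hm01 hm12
  have hN0 : (0 : ℝ) < ((2 ^ v : ℕ) : ℝ) := by positivity
  have hk1 : (0 : ℝ) < (k : ℝ) + 1 := by positivity
  have hsq : Real.sqrt (c * c' / 4) * (n : ℝ) ^ (-(1 / 2 : ℝ)) * (v : ℝ) ^ (((e : ℝ) + 1) / 2) *
      ((k : ℝ) + 1) ^ (1 / 2 : ℝ) ≤ Real.sqrt ((Shp e m₀ m₁).card / ((2 ^ v : ℕ) : ℝ)) := by
    apply Real.le_sqrt_of_sq_le
    have e1 : ((n : ℝ) ^ (-(1 / 2 : ℝ))) ^ 2 = (n : ℝ)⁻¹ := by
      rw [← Real.rpow_natCast ((n : ℝ) ^ (-(1 / 2 : ℝ))) 2, ← Real.rpow_mul hn0.le]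
      norm_num
      exact Real.rpow_neg_one _
    have e2 : ((v : ℝ) ^ (((e : ℝ) + 1) / 2)) ^ 2 = (v : ℝ) ^ (e + 1) := by
      rw [← Real.rpow_natCast ((v : ℝ) ^ (((e : ℝ) + 1) / 2)) 2, ← Real.rpow_mul hv0.le,
        ← Real.rpow_natCast (v : ℝ) (e + 1)]
      congr 1
      push_cast
      ring
    have e3 : (((k : ℝ) + 1) ^ (1 / 2 : ℝ)) ^ 2 = (k : ℝ) + 1 := by
      rw [← Real.rpow_natCast (((k : ℝ) + 1) ^ (1 / 2 : ℝ)) 2, ← Real.rpow_mul hk1.le]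
      norm_num
    rw [mul_pow, mul_pow, mul_pow, Real.sq_sqrt (by positivity), e1, e2, e3, le_div_iff₀ hN0]
    have hNn : ((2 ^ v : ℕ) : ℝ) * v ≤ 4 / c * n := by
      rw [div_mul_eq_mul_div, le_div_iff₀ hc]
      have : c * φ v = ((2 ^ v : ℕ) : ℝ) * v * c := by simp only [φ]; push_cast; ring
      rw [← this]; exact hn2
    have hd : ((k : ℝ) + 1) ≤ ((m₁ - m₀ + 1 : ℕ) : ℝ) := by exact_mod_cast hdiff
    calc c * c' / 4 * (n : ℝ)⁻¹ * (v : ℝ) ^ (e + 1) * ((k : ℝ) + 1) * ((2 ^ v : ℕ) : ℝ)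
        = c * c' / 4 * (n : ℝ)⁻¹ * (v : ℝ) ^ e * ((k : ℝ) + 1) * (((2 ^ v : ℕ) : ℝ) * v) := by
          rw [pow_succ]; ring
      _ ≤ c * c' / 4 * (n : ℝ)⁻¹ * (v : ℝ) ^ e * ((k : ℝ) + 1) * (4 / c * n) := by gcongr
      _ = c' * ((k : ℝ) + 1) * (v : ℝ) ^ e := by field_simp
      _ ≤ c' * ((m₁ - m₀ + 1 : ℕ) : ℝ) * (m₁ : ℝ) ^ e := by gcongr
      _ ≤ _ := hcm
  -- logarithms
  have hlog : Real.log n ≤ C₁ * v := l14_log c hc hn1' hv1 hn1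
  have hlog1 : 1 ≤ Real.log n := by
    rw [Real.le_log_iff_exp_le hn0]
    have := Real.exp_one_lt_d9
    have h3 : (3 : ℝ) ≤ n := by exact_mod_cast hn3
    linarith
  have hlog0 : 0 ≤ Real.log n := by linarith
  have hll0 : 0 ≤ Real.log (Real.log n) := Real.log_nonneg hlog1
  have hll : Real.log (Real.log n) ≤ (C₁ + 1) * ((k : ℝ) + 1) := by
    have g1 := Real.log_le_log (by linarith) hlog
    rw [Real.log_mul hC₁0.ne' hv0.ne'] at g1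
    have g2 : Real.log C₁ ≤ C₁ := by
      have := Real.log_le_sub_one_of_pos hC₁0
      linarith
    have g3 : Real.log v ≤ (k : ℝ) + 1 := by
      have g4 := Real.log_le_log hv0 h2
      rw [Real.log_mul (by norm_num) (by positivity), Real.log_pow] at g4
      have g5 : Real.log 2 ≤ 1 := by
        have := Real.log_two_lt_d9
        linarith
      have g6 : (k : ℝ) * Real.log 2 ≤ k * 1 := mul_le_mul_of_nonneg_left g5 (by positivity)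
      linarith
    have g7 : C₁ ≤ C₁ * ((k : ℝ) + 1) := by
      have : (0 : ℝ) ≤ k := by positivity
      nlinarith
    nlinarith
  have t1 : (C₁⁻¹) ^ (((e : ℝ) + 1) / 2) * Real.log n ^ (((e : ℝ) + 1) / 2) ≤
      (v : ℝ) ^ (((e : ℝ) + 1) / 2) := by
    rw [← Real.mul_rpow (by positivity) hlog0]
    apply Real.rpow_le_rpow (by positivity) _ (by positivity)
    rw [inv_mul_le_iff₀ hC₁0]
    exact hlog
  have t2 : ((C₁ + 1)⁻¹) ^ (1 / 2 : ℝ) * Real.log (Real.log n) ^ (1 / 2 : ℝ) ≤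
      ((k : ℝ) + 1) ^ (1 / 2 : ℝ) := by
    rw [← Real.mul_rpow (by positivity) hll0]
    apply Real.rpow_le_rpow (by positivity) _ (by positivity)
    rw [inv_mul_le_iff₀ (by positivity)]
    exact hll
  calc c * Real.sqrt (c * c' / 4) * (C₁⁻¹) ^ (((e : ℝ) + 1) / 2) * ((C₁ + 1)⁻¹) ^ (1 / 2 : ℝ) *
        (n : ℝ) ^ (-(1 / 2 : ℝ)) * Real.log n ^ (((e : ℝ) + 1) / 2) *
        Real.log (Real.log n) ^ (1 / 2 : ℝ)
      = c * (Real.sqrt (c * c' / 4) * (n : ℝ) ^ (-(1 / 2 : ℝ)) *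
          ((C₁⁻¹) ^ (((e : ℝ) + 1) / 2) * Real.log n ^ (((e : ℝ) + 1) / 2)) *
          (((C₁ + 1)⁻¹) ^ (1 / 2 : ℝ) * Real.log (Real.log n) ^ (1 / 2 : ℝ))) := by ring
    _ ≤ c * (Real.sqrt (c * c' / 4) * (n : ℝ) ^ (-(1 / 2 : ℝ)) *
          (v : ℝ) ^ (((e : ℝ) + 1) / 2) * ((k : ℝ) + 1) ^ (1 / 2 : ℝ)) := by gcongr
    _ ≤ _ := by gcongr

end Pool.Agent.Helper56.SB
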